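import Pool.Agent.Helper3.EL.Defs

/-!
# Project EL, module EL-N: all nodes of the tree
-/

set_option autoImplicit false

namespace Pool.Agent.Helper3.EL

open Finset Pool.Agent.Lead.TB Pool.Agent.Lead.TB.Halves Pool.Agent.Helper84.TL

/-- The statement of `wK_eq` (EL-H). -/
def WKEq : Prop := ∀ {n m : ℕ} {ι : Type} [Fintype ι] [DecidableEq ι] (side : ι → Bool)
    (_ : Fintype.card ι = 2 * m) (_ : (univ.filter fun i => side i = true).card = m)
    (f : ι → Equiv.Perm (Fin n)) (_ : ∀ i j, i ≠ j → ∀ r, f i r ≠ f j r),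
    wK m (un f) (unS side f) =
      (∑ p ∈ sys n m side, (ncl (mR p.1) (mC p.2 f) : ℝ)) / (sys n m side).card

/-- The statement of `sys_card_pos` (EL-H). -/
def SysPos : Prop := ∀ {ι : Type} [Fintype ι] [DecidableEq ι] (n m : ℕ) (side : ι → Bool)
    (_ : Fintype.card ι = 2 * m) (_ : (univ.filter fun i => side i = true).card = m),
    0 < (sys n m side).card

/-- The statement of `ld_core` (EL-M). -/
def LdCore : Prop := ∀ {n m : ℕ} (_ : 1 ≤ n) {ι : Type} [Fintype ι] [DecidableEq ι]
    (side : ι → Bool) {Ω : Type} [Fintype Ω] [Nonempty Ω] (lam : Ω → ι ↪ Fin n)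
    (e e' : Ω → Fin n → (ι ≃ Fin m × Bool)) (_ : ∀ w r x, side (par (e w r) x) ≠ side x)
    (_ : ∀ w r x, side (par (e' w r) x) ≠ side x) {κ : ℝ} (_ : 0 < κ)
    (_ : ∀ s, ((univ.filter fun w => ∃ x, lam w x = s).card : ℝ) ≤ κ * Fintype.card Ω)
    (t : ℝ),
    (((ls n).filter fun L => κ * t ≤
      (∑ w, (ncl (mR (e w)) (mC (e' w) fun x => L (lam w x)) : ℝ)) / Fintype.card Ω).card : ℝ) ≤
      Real.exp (3 * n * (1 + Real.log n) ^ 2 - t) * ((ls n).card : ℝ)

theorem ELN_card (k : ℕ) : Fintype.card (Fin (k + 1) → Bool) = 2 * 2 ^ k := by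
  simp [pow_succ, mul_comm]

theorem ELN_filter (k : ℕ) :
    (univ.filter fun x : Fin (k + 1) → Bool => x 0 = true) =
      univ.image fun y : Fin k → Bool => (Fin.cons true y : Fin (k + 1) → Bool) := by
  ext x
  simp only [mem_filter, mem_univ, true_and, mem_image]
  constructor
  · intro h
    refine ⟨Fin.tail x, ?_⟩
    rw [← h, Fin.cons_self_tail]
  · rintro ⟨y, rfl⟩
    exact Fin.cons_zero _ _

theorem ELN_side (k : ℕ) :
    (univ.filter fun x : Fin (k + 1) → Bool => x 0 = true).card = 2 ^ k := by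
  rw [ELN_filter, card_image_of_injective _ (Fin.cons_right_injective (α := fun _ => Bool) true)]
  simp

theorem ELN_un {n k : ℕ} (f : (Fin (k + 1) → Bool) → Equiv.Perm (Fin n)) :
    un (lft f) = unS (fun x : Fin (k + 1) → Bool => x 0) f := by
  funext r
  unfold un unS
  rw [ELN_filter, image_image]
  rfl

theorem ELN_par {m : ℕ} {ι : Type} [Fintype ι] [DecidableEq ι] {side : ι → Bool}
    {e : ι ≃ Fin m × Bool} (he : e ∈ slab m side) (x : ι) : side (par e x) ≠ side x := by
  rw [slab, mem_filter] at he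
  have h := he.2 (e x).1
  unfold par
  have hx : x = e.symm ((e x).1, (e x).2) := by simp
  cases hb : (e x).2 with
  | false =>
    rw [hb] at hx
    intro h'
    apply h
    rw [Bool.not_false] at h'
    rw [h']
    exact congrArg side hx
  | true =>
    rw [hb] at hx
    intro h'
    apply h
    rw [Bool.not_true] at h'
    rw [h']
    exact (congrArg side hx).symm

theorem ELN_ls {n : ℕ} {ι : Type} {L : Fin n → Equiv.Perm (Fin n)} (hL : L ∈ ls n)
    (lam : ι ↪ Fin n) : ∀ i j, i ≠ j → ∀ r, L (lam i) r ≠ L (lam j) r := by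
  intro i j hij r
  simp only [ls, fac, mem_filter] at hL
  exact hL.2.2 _ _ (fun h => hij (lam.injective h)) r

theorem ld_node_of (hW : WKEq) (hS : SysPos) (hC : LdCore)
    {n k : ℕ} (hn : 1 ≤ n) {Ω : Type} [Fintype Ω] [Nonempty Ω]
    (lam : Ω → (Fin (k + 1) → Bool) ↪ Fin n) {p : ℝ} (hp : 0 < p)
    (hp' : ∀ x s, ((univ.filter fun w => lam w x = s).card : ℝ) ≤ p * Fintype.card Ω) (t : ℝ) :
    (((ls n).filter fun L => (2 : ℝ) ^ (k + 1) * p * t ≤
      (∑ w, wK (2 ^ k) (un fun x => L (lam w x)) (un (lft fun x => L (lam w x)))) /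
        Fintype.card Ω).card : ℝ) ≤
      Real.exp (3 * n * (1 + Real.log n) ^ 2 - t) * ((ls n).card : ℝ) := by
  classical
  set side : (Fin (k + 1) → Bool) → Bool := fun x => x 0 with hside
  have hpos := hS n (2 ^ k) side (ELN_card k) (ELN_side k)
  let Q : Type := {q // q ∈ sys n (2 ^ k) side}
  have hQ : Fintype.card Q = (sys n (2 ^ k) side).card := Fintype.card_coe _
  have hQne : Nonempty Q := by
    rw [← Fintype.card_pos_iff, hQ]
    exact hpos
  have hmem : ∀ q : Q, (∀ r, q.1.1 r ∈ slab (2 ^ k) side) ∧ ∀ r, q.1.2 r ∈ slab (2 ^ k) side := by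
    intro q
    have h : q.1 ∈ sys n (2 ^ k) side := q.2
    simp only [sys, mem_product, Fintype.mem_piFinset] at h
    exact h
  have hκ : 0 < (2 : ℝ) ^ (k + 1) * p := by positivity
  have hcardΩ : (Fintype.card (Ω × Q) : ℝ) = (Fintype.card Ω : ℝ) * (Fintype.card Q : ℝ) := by
    rw [Fintype.card_prod]
    push_cast
    rfl
  have hκ' : ∀ s, ((univ.filter fun w : Ω × Q => ∃ x, lam w.1 x = s).card : ℝ) ≤
      (2 : ℝ) ^ (k + 1) * p * Fintype.card (Ω × Q) := by
    intro s
    have h1 : (univ.filter fun w : Ω × Q => ∃ x, lam w.1 x = s) ⊆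
        univ.biUnion fun x : Fin (k + 1) → Bool =>
          (univ.filter fun w => lam w x = s) ×ˢ (univ : Finset Q) := by
      intro w hw
      simp only [mem_filter, mem_univ, true_and] at hw
      obtain ⟨x, hx⟩ := hw
      simp only [mem_biUnion, mem_univ, true_and, mem_product, mem_filter, and_true]
      exact ⟨x, hx⟩
    have h2 : ((univ.filter fun w : Ω × Q => ∃ x, lam w.1 x = s).card : ℝ) ≤
        ∑ x : Fin (k + 1) → Bool, ((univ.filter fun w => lam w x = s).card : ℝ) *
          Fintype.card Q := by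
      have h3 := (card_le_card h1).trans card_biUnion_le
      have h4 : ∑ x : Fin (k + 1) → Bool,
          ((univ.filter fun w => lam w x = s) ×ˢ (univ : Finset Q)).card =
          ∑ x : Fin (k + 1) → Bool, (univ.filter fun w => lam w x = s).card *
            Fintype.card Q :=
        Finset.sum_congr rfl fun x _ => by rw [card_product, card_univ]
      rw [h4] at h3
      exact_mod_cast h3
    refine h2.trans ?_
    have h5 : ∑ x : Fin (k + 1) → Bool, ((univ.filter fun w => lam w x = s).card : ℝ) *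
          Fintype.card Q ≤ ∑ _x : Fin (k + 1) → Bool, (p * Fintype.card Ω) * Fintype.card Q :=
      Finset.sum_le_sum fun x _ => mul_le_mul_of_nonneg_right (hp' x s) (Nat.cast_nonneg _)
    refine h5.trans (le_of_eq ?_)
    rw [Finset.sum_const, card_univ, ELN_card, hcardΩ, nsmul_eq_mul]
    push_cast
    ring
  have hmain := hC (n := n) (m := 2 ^ k) hn side (Ω := Ω × Q) (fun w => lam w.1)
    (fun w => w.2.1.1) (fun w => w.2.1.2) (fun w r x => ELN_par ((hmem w.2).1 r) x)
    (fun w r x => ELN_par ((hmem w.2).2 r) x) hκ hκ' t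
  refine le_trans (le_of_eq ?_) hmain
  congr 2
  apply Finset.filter_congr
  intro L hL
  have hval : (∑ w, wK (2 ^ k) (un fun x => L (lam w x)) (un (lft fun x => L (lam w x)))) /
        (Fintype.card Ω : ℝ) =
      (∑ w : Ω × Q, (ncl (mR w.2.1.1) (mC w.2.1.2 fun x => L (lam w.1 x)) : ℝ)) /
        Fintype.card (Ω × Q) := by
    have hw : ∀ w, wK (2 ^ k) (un fun x => L (lam w x)) (un (lft fun x => L (lam w x))) =
        (∑ q : Q, (ncl (mR q.1.1) (mC q.1.2 fun x => L (lam w x)) : ℝ)) / Fintype.card Q := by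
      intro w
      rw [ELN_un, hW side (ELN_card k) (ELN_side k) _ (ELN_ls hL (lam w)), hQ]
      congr 1
      exact (Finset.sum_coe_sort (sys n (2 ^ k) side)
        (fun q => (ncl (mR q.1) (mC q.2 fun x => L (lam w x)) : ℝ))).symm
    rw [Fintype.sum_prod_type, hcardΩ]
    simp_rw [hw]
    rw [← Finset.sum_div, div_div, mul_comm (Fintype.card Q : ℝ)]
  rw [hval]

theorem ld_tree_of (hW : WKEq) (hS : SysPos) (hC : LdCore)
    {n k : ℕ} (hn : 1 ≤ n) {Ω : Type} [Fintype Ω] [Nonempty Ω]
    (lam : Ω → (Fin k → Bool) ↪ Fin n) {p : ℝ} (hp : 0 < p)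
    (hp' : ∀ x s, ((univ.filter fun w => lam w x = s).card : ℝ) ≤ p * Fintype.card Ω) (t : ℝ) :
    (((ls n).filter fun L => (k : ℝ) * 2 ^ k * p * t <
      (∑ w, tw k (fun x => L (lam w x))) / Fintype.card Ω).card : ℝ) ≤
      2 ^ k * Real.exp (3 * n * (1 + Real.log n) ^ 2 - t) * ((ls n).card : ℝ) := by
  set W : ℝ := Real.exp (3 * n * (1 + Real.log n) ^ 2 - t) * ((ls n).card : ℝ) with hWd
  have hW0 : 0 ≤ W := by positivity
  have key : ∀ (k : ℕ) (lam : Ω → (Fin k → Bool) ↪ Fin n),
      (∀ x s, ((univ.filter fun w => lam w x = s).card : ℝ) ≤ p * Fintype.card Ω) →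
      (((ls n).filter fun L => (k : ℝ) * 2 ^ k * p * t <
        (∑ w, tw k (fun x => L (lam w x))) / Fintype.card Ω).card : ℝ) ≤ (2 ^ k - 1) * W := by
    intro k
    induction k with
    | zero =>
      intro lam _
      have h1 : ((ls n).filter fun L => ((0 : ℕ) : ℝ) * 2 ^ 0 * p * t <
        (∑ w, tw 0 (fun x => L (lam w x))) / Fintype.card Ω) = ∅ := by
        apply Finset.filter_false_of_mem
        intro L _
        simp [tw]
      rw [h1]
      simp
    | succ k ih =>
      intro lam hlam
      have hinj : ∀ b : Bool, Function.Injective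
          (fun y : Fin k → Bool => (Fin.cons b y : Fin (k + 1) → Bool)) := fun b =>
        Fin.cons_right_injective (α := fun _ => Bool) b
      let lamb : Bool → Ω → (Fin k → Bool) ↪ Fin n := fun b w =>
        ⟨fun y => lam w (Fin.cons b y), (lam w).injective.comp (hinj b)⟩
      have h1 := ih (lamb true) (fun x s => hlam (Fin.cons true x) s)
      have h2 := ih (lamb false) (fun x s => hlam (Fin.cons false x) s)
      have h3 := ld_node_of hW hS hC hn lam hp hlam t
      rw [← hWd] at h3
      have hsub : ((ls n).filter fun L => ((k + 1 : ℕ) : ℝ) * 2 ^ (k + 1) * p * t <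
          (∑ w, tw (k + 1) (fun x => L (lam w x))) / Fintype.card Ω) ⊆
          ((ls n).filter fun L => (2 : ℝ) ^ (k + 1) * p * t ≤
            (∑ w, wK (2 ^ k) (un fun x => L (lam w x)) (un (lft fun x => L (lam w x)))) /
              Fintype.card Ω) ∪
          (((ls n).filter fun L => (k : ℝ) * 2 ^ k * p * t <
            (∑ w, tw k (fun x => L (lamb true w x))) / Fintype.card Ω) ∪
          ((ls n).filter fun L => (k : ℝ) * 2 ^ k * p * t <
            (∑ w, tw k (fun x => L (lamb false w x))) / Fintype.card Ω)) := by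
        intro L hL
        rw [mem_filter] at hL
        rw [mem_union, mem_union, mem_filter, mem_filter, mem_filter]
        by_contra hcon
        push Not at hcon
        obtain ⟨c1, c2, c3⟩ := hcon
        have c1' := c1 hL.1
        have c2' := c2 hL.1
        have c3' := c3 hL.1
        have hsum : (∑ w, tw (k + 1) (fun x => L (lam w x))) / (Fintype.card Ω : ℝ) =
            (∑ w, wK (2 ^ k) (un fun x => L (lam w x)) (un (lft fun x => L (lam w x)))) /
              Fintype.card Ω +
            (∑ w, tw k (fun x => L (lamb true w x))) / Fintype.card Ω +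
            (∑ w, tw k (fun x => L (lamb false w x))) / Fintype.card Ω := by
          rw [← add_div, ← add_div, ← Finset.sum_add_distrib, ← Finset.sum_add_distrib]
          rfl
        have h4 := hL.2
        rw [hsum] at h4
        push_cast at h4
        rw [pow_succ] at h4 c1'
        nlinarith
      have h5 : (((ls n).filter fun L => ((k + 1 : ℕ) : ℝ) * 2 ^ (k + 1) * p * t <
          (∑ w, tw (k + 1) (fun x => L (lam w x))) / Fintype.card Ω).card : ℝ) ≤
          W + ((2 ^ k - 1) * W + (2 ^ k - 1) * W) := by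
        have h6 := (card_le_card hsub).trans ((card_union_le _ _).trans
          (Nat.add_le_add_left (card_union_le _ _) _))
        have h7 : (((ls n).filter fun L => ((k + 1 : ℕ) : ℝ) * 2 ^ (k + 1) * p * t <
          (∑ w, tw (k + 1) (fun x => L (lam w x))) / Fintype.card Ω).card : ℝ) ≤ _ :=
          Nat.cast_le.2 h6
        push_cast at h7
        push_cast
        linarith
      refine h5.trans (le_of_eq ?_)
      rw [pow_succ]
      ring
  have h := key k lam hp'
  refine h.trans ?_
  rw [mul_assoc, ← hWd]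
  nlinarith

end Pool.Agent.Helper3.EL
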